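import Mathlib
import Pool.Agent.Q76.GenericFinal
import Pool.Agent.Q76.BaireBijections

/-!
# MP_c4f89b_an: graphs of generic homeomorphisms of the cube have non-σ-finite `ℋᵈ`-measure
-/

namespace Pool.Agent.Results.MP_c4f89b_an.GenericGraphNotSigmaFinite

open MeasureTheory Set
open scoped ENNReal

/-- The unit cube `[0,1]ᵈ` in the Euclidean space `ℝᵈ`. -/
def Cube (d : ℕ) : Set (EuclideanSpace ℝ (Fin d)) := {x | ∀ i, x i ∈ Icc (0 : ℝ) 1}

/-- The homeomorphisms of the cube (the continuous bijections of the compact cube onto itself),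
with the topology of uniform convergence, that is, the topology of `C(Cube d, Cube d)`. -/
abbrev HomeoCube (d : ℕ) := {f : C(Cube d, Cube d) // Function.Bijective f}

/-- The graph of a homeomorphism of the cube, as a subset of `ℝᵈ × ℝᵈ = ℝ²ᵈ` with the Euclidean
metric. -/
def graph {d : ℕ} (f : HomeoCube d) :
    Set (WithLp 2 (EuclideanSpace ℝ (Fin d) × EuclideanSpace ℝ (Fin d))) :=
  {P | ∃ x : Cube d, P = WithLp.toLp 2 ((x : EuclideanSpace ℝ (Fin d)),
    (f.1 x : EuclideanSpace ℝ (Fin d)))}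

/-- The restriction of `ℋᵈ` to the graph is σ-finite: the graph is a countable union of sets of
finite `ℋᵈ`-measure. -/
def SigmaFiniteGraph {d : ℕ} (f : HomeoCube d) : Prop :=
  ∃ A : ℕ → Set (WithLp 2 (EuclideanSpace ℝ (Fin d) × EuclideanSpace ℝ (Fin d))),
    graph f = ⋃ n, A n ∧ ∀ n, μH[(d : ℝ)] (A n) < ∞

/-- For every `d ≥ 2`, the set of homeomorphisms of `[0,1]ᵈ` whose graph has non-σ-finite
`d`-dimensional Hausdorff measure is comeagre: it is residual, and it contains a dense `Gδ` set. -/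
theorem result (d : ℕ) (hd : 2 ≤ d) :
    {f : HomeoCube d | ¬ SigmaFiniteGraph f} ∈ residual (HomeoCube d) ∧
      ∃ G : Set (HomeoCube d), IsGδ G ∧ Dense G ∧ ∀ f ∈ G, ¬ SigmaFiniteGraph f := by
  obtain ⟨m, rfl⟩ : ∃ m, d = m + 2 := ⟨d - 2, by omega⟩
  have h1 : {f : HomeoCube (m + 2) | ¬ SigmaFiniteGraph f} ∈ residual (HomeoCube (m + 2)) :=
    Q76.GenericHomeo.eventually_not_sigmaFinite m
  have : CompactSpace (Cube (m + 2)) := inferInstanceAs (CompactSpace (Q76.GenericHomeo.cube m))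
  have : BaireSpace (HomeoCube (m + 2)) := Q76.BaireBijections.baireSpace_bijections
  refine ⟨h1, ?_⟩
  obtain ⟨G, hG, hG1, hG2⟩ := mem_residual.mp h1
  exact ⟨G, hG1, hG2, fun f hf => hG hf⟩

end Pool.Agent.Results.MP_c4f89b_an.GenericGraphNotSigmaFinite
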